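import Mathlib
import Pool.Agent.Lib.H23R.Main

/-!
# MP_ffd330_lc: Q1 reduces to the low degrees outside of any given uniformly c.e. sequence of upper cones, and there to two
weak forms

The definitions are in `Pool.Agent.Lib.H23R.Defs` and, for `Meets`, `bj`, `Dips`, `Gens`, in `Pool.Agent.Lib.H23R.Main`.
-/

namespace Pool.Agent.Results.MP_ffd330_lc.LowDegreesSuffice

open Pool.Agent.Lib.H23R
open scoped Classical

/-- The left side of `result` for the class of the high c.e. sets and for the property `True` is the frozen statement S15663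
(a check, not part of the hand-in). -/
theorem q1_form :
    (∀ W : Set ℕ,
      (∃ p : ℕ →. ℕ, Nat.Partrec p ∧ ∀ n, n ∈ W ↔ (p n).Dom) →
      ¬ ComputablePred (fun n => n ∈ W) →
      ∃ A : Set ℕ,
        (∃ p : ℕ →. ℕ, Nat.Partrec p ∧ ∀ n, n ∈ A ↔ (p n).Dom) ∧
        TuringReducible (fun n => Part.some (if n ∈ A then (1 : ℕ) else 0))
          (fun n => Part.some (if n ∈ W then (1 : ℕ) else 0)) ∧
        TuringReducible (fun n => Part.some (if n ∈ W then (1 : ℕ) else 0))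
          (fun n => Part.some (if n ∈ A then (1 : ℕ) else 0)) ∧
        ∀ H : Set ℕ,
          (∃ p : ℕ →. ℕ, Nat.Partrec p ∧ ∀ n, n ∈ H ↔ (p n).Dom) →
          (∃ f : ℕ → ℕ,
            TuringReducible (fun n => Part.some (f n))
              (fun n => Part.some (if n ∈ H then (1 : ℕ) else 0)) ∧
            ∀ g : ℕ → ℕ, Computable g → ∃ N : ℕ, ∀ n, N ≤ n → g n ≤ f n) →
          ∃ Φ : Set ℕ → Set ℕ,
            (∀ X : Set ℕ, (∃ p : ℕ →. ℕ, Nat.Partrec p ∧ ∀ n, n ∈ X ↔ (p n).Dom) →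
              ∃ q : ℕ →. ℕ, Nat.Partrec q ∧ ∀ n, n ∈ Φ X ↔ (q n).Dom) ∧
            (∀ Y : Set ℕ, (∃ p : ℕ →. ℕ, Nat.Partrec p ∧ ∀ n, n ∈ Y ↔ (p n).Dom) →
              ∃ X : Set ℕ, (∃ q : ℕ →. ℕ, Nat.Partrec q ∧ ∀ n, n ∈ X ↔ (q n).Dom) ∧ Φ X = Y) ∧
            (∀ X Y : Set ℕ,
              (∃ p : ℕ →. ℕ, Nat.Partrec p ∧ ∀ n, n ∈ X ↔ (p n).Dom) →
              (∃ p : ℕ →. ℕ, Nat.Partrec p ∧ ∀ n, n ∈ Y ↔ (p n).Dom) →
              (X ⊆ Y ↔ Φ X ⊆ Φ Y)) ∧
            TuringReducible (fun n => Part.some (if n ∈ Φ A then (1 : ℕ) else 0))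
              (fun n => Part.some (if n ∈ H then (1 : ℕ) else 0)) ∧
            TuringReducible (fun n => Part.some (if n ∈ H then (1 : ℕ) else 0))
              (fun n => Part.some (if n ∈ Φ A then (1 : ℕ) else 0))) ↔
    ∀ W : Set ℕ, CE W → NonComp W → True → Meets (fun H => CE H ∧ High H) W := by
  constructor
  · intro h W hW hn _
    obtain ⟨A, hA, h1, h2, h3⟩ := h W hW hn
    refine ⟨A, hA, h1, h2, fun H hH => ?_⟩
    obtain ⟨Φ, h4, h5, h6, h7, h8⟩ := h3 H hH.1 hH.2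
    exact ⟨Φ, ⟨h4, h5, h6⟩, h7, h8⟩
  · intro h W hW hn
    obtain ⟨A, hA, h1, h2, h3⟩ := h W hW hn trivial
    refine ⟨A, hA, h1, h2, fun H hH hHh => ?_⟩
    obtain ⟨Φ, h4, h7, h8⟩ := h3 H ⟨hH, hHh⟩
    exact ⟨Φ, h4.maps, h4.surj, h4.mono, h7, h8⟩

/-- THE REDUCTION THEOREM. `K`: any class of sets (for Q1: the high c.e. sets); `P`: any property of c.e. sets closed
downward under Turing reducibility (for Q1: `True`); `U`: any uniformly c.e. sequence of noncomputable sets. -/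
theorem result (K : Set ℕ → Prop) (P : Set ℕ → Prop) (hP : ∀ V W, CE V → CE W → Le V W → P W → P V)
    (U : ℕ → Set ℕ) (hU : CE {m | m.unpair.2 ∈ U m.unpair.1}) (hUn : ∀ k, NonComp (U k)) :
    (∀ W, CE W → NonComp W → P W → Meets K W) ↔
      ∀ W, CE W → NonComp W → P W → Low W → (∀ k, ¬ Le (U k) W) →
        ∃ A B, CE A ∧ CE B ∧ Le A W ∧ Le B W ∧ Le W (join A B) ∧ Dips K A ∧ Gens K B :=
  main K P hP U hU hUn

end Pool.Agent.Results.MP_ffd330_lc.LowDegreesSuffice
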